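import Pool.Agent.Lib.MP_f0132d_co.MeanW52

set_option autoImplicit false

/-!
Convex space-fillers: the mean widths of the facets sum up to at most six times the mean width
of the body, and there are at most `12 / ε` facets of diameter at least `ε` times the diameter.
-/

namespace Pool.Agent.Results.MP_f0132d_co.FacetMeanWidths

open MeasureTheory Pool.Agent.Lib.MP_f0132d_co

/-- three-dimensional Euclidean space -/
abbrev E3 := EuclideanSpace ℝ (Fin 3)

/-- `P` is the prototile of a monohedral tiling of space: countably many congruent copies of `P`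
(images under isometries) cover the space and have pairwise disjoint interiors. -/
def IsSpaceFiller (P : Set E3) : Prop :=
  ∃ (ι : Type) (g : ι → E3 ≃ᵢ E3), Countable ι ∧ (⋃ i, g i '' P) = Set.univ ∧
    ∀ i j, i ≠ j → Disjoint (interior (g i '' P)) (interior (g j '' P))

/-- `F` is a facet of `P`: the set of the points of `P` where some nonzero linear functional is
maximal on `P`, not contained in a line. -/
def IsFacet (P F : Set E3) : Prop :=
  (∃ φ : E3 →ₗ[ℝ] ℝ, φ ≠ 0 ∧ F = {x | x ∈ P ∧ ∀ y ∈ P, φ y ≤ φ x}) ∧ ¬ Collinear ℝ F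

/-- the extent of `K` in the direction `v`: the difference of the largest and the least value of
`inner v` on `K` (for a unit vector `v`, the width of `K` in the direction `v`) -/
noncomputable def extent (v : E3) (K : Set E3) : ℝ :=
  sSup ((fun x => inner ℝ v x) '' K) - sInf ((fun x => inner ℝ v x) '' K)

/-- the mean width: the integral of the extent over all directions of the unit ball, divided by
the integral of the norm (the extent being homogeneous, this is the average of the widths over
all unit directions) -/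
noncomputable def meanWidth (K : Set E3) : ℝ :=
  (∫ v in Metric.closedBall (0 : E3) 1, extent v K) / ∫ v in Metric.closedBall (0 : E3) 1, ‖v‖

theorem meanWidth_eq (K : Set E3) : meanWidth K = SF52.wint K / Real.pi := by
  unfold meanWidth
  rw [SF52.norm_int]
  rfl

/-- **Facets of a convex space-filler.** -/
theorem result (P : Set E3) (hc : IsCompact P) (hv : Convex ℝ P) (hi : (interior P).Nonempty)
    (ht : IsSpaceFiller P) :
    (∀ Fs : Finset (Set E3), (∀ F ∈ Fs, IsFacet P F) →
      ∑ F ∈ Fs, meanWidth F ≤ 6 * meanWidth P) ∧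
    (∀ Fs : Finset (Set E3), (∀ F ∈ Fs, IsFacet P F) →
      ∑ F ∈ Fs, Metric.diam F ≤ 12 * Metric.diam P) ∧
    ∀ ε : ℝ, 0 < ε →
      {F : Set E3 | IsFacet P F ∧ ε * Metric.diam P ≤ Metric.diam F}.Finite ∧
      ({F : Set E3 | IsFacet P F ∧ ε * Metric.diam P ≤ Metric.diam F}.ncard : ℝ) ≤ 12 / ε := by
  obtain ⟨ι, g, -, hcov, hdisj⟩ := ht
  have hpi := Real.pi_pos
  have hne : P.Nonempty := hi.mono interior_subset
  have main : ∀ Fs : Finset (Set E3), (∀ F ∈ Fs, IsFacet P F) →
      ∑ F ∈ Fs, SF52.wint F ≤ 6 * SF52.wint P := fun Fs hFs =>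
    SF52.facet_ineq hc hv hi g hcov hdisj Fs (fun F hF => hFs F hF)
  have hdiam : ∀ Fs : Finset (Set E3), (∀ F ∈ Fs, IsFacet P F) →
      ∑ F ∈ Fs, Metric.diam F ≤ 12 * Metric.diam P := by
    intro Fs hFs
    have h1 : ∀ F ∈ Fs, Metric.diam F * (Real.pi / 2) ≤ SF52.wint F := by
      intro F hF
      have hFk : IsCompact F := SF52.facet_compact hc (hFs F hF)
      have hFn : F.Nonempty := SF52.facet_nonempty (V := E3) (T := P) (hFs F hF)
      rw [← le_div_iff₀ (by positivity)]
      apply Metric.diam_le_of_forall_dist_le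
      · exact div_nonneg (SF52.wint_nonneg hFk hFn) (by positivity)
      · intro x hx y hy
        rw [le_div_iff₀ (by positivity)]
        exact SF52.dist_le_wint hFk hx hy
    have h2 : (∑ F ∈ Fs, Metric.diam F) * (Real.pi / 2) ≤ 6 * (Metric.diam P * Real.pi) := by
      rw [Finset.sum_mul]
      calc ∑ F ∈ Fs, Metric.diam F * (Real.pi / 2) ≤ ∑ F ∈ Fs, SF52.wint F := Finset.sum_le_sum h1
        _ ≤ 6 * SF52.wint P := main Fs hFs
        _ ≤ 6 * (Metric.diam P * Real.pi) := by
            have := SF52.wint_le_diam hc hne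
            linarith
    nlinarith
  refine ⟨?_, hdiam, ?_⟩
  · intro Fs hFs
    simp only [meanWidth_eq]
    rw [← Finset.sum_div, ← mul_div_assoc]
    exact div_le_div_of_nonneg_right (main Fs hFs) hpi.le
  · intro ε hε
    -- the diameter of `P` is positive
    have hD : 0 < Metric.diam P := by
      obtain ⟨x, hx⟩ := hi
      obtain ⟨δ, hδ, hb⟩ := Metric.isOpen_iff.1 isOpen_interior x hx
      set y : E3 := x + (δ / 2) • EuclideanSpace.single 0 1 with hy
      have hd : dist y x = δ / 2 := by
        rw [hy, dist_eq_norm, add_sub_cancel_left, norm_smul, Real.norm_eq_abs,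
          abs_of_pos (by linarith), PiLp.norm_single]
        simp
      have hyP : y ∈ P := interior_subset (hb (by rw [Metric.mem_ball, hd]; linarith))
      have := Metric.dist_le_diam_of_mem hc.isBounded hyP (interior_subset hx)
      rw [hd] at this
      linarith
    have hcard : ∀ Fs : Finset (Set E3),
        (∀ F ∈ Fs, F ∈ {F : Set E3 | IsFacet P F ∧ ε * Metric.diam P ≤ Metric.diam F}) →
        (Fs.card : ℝ) ≤ 12 / ε := by
      intro Fs hFs
      have h1 := hdiam Fs (fun F hF => (hFs F hF).1)
      have h2 : (Fs.card : ℝ) * (ε * Metric.diam P) ≤ ∑ F ∈ Fs, Metric.diam F := by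
        rw [← nsmul_eq_mul]
        exact Finset.card_nsmul_le_sum _ _ _ (fun F hF => (hFs F hF).2)
      rw [le_div_iff₀ hε]
      have h3 : ((Fs.card : ℝ) * ε) * Metric.diam P ≤ 12 * Metric.diam P := by linarith
      exact le_of_mul_le_mul_right h3 hD
    have hfin : {F : Set E3 | IsFacet P F ∧ ε * Metric.diam P ≤ Metric.diam F}.Finite := by
      by_contra hinf
      obtain ⟨n, hn⟩ := exists_nat_gt (12 / ε)
      obtain ⟨s, hs, hsn⟩ := Set.Infinite.exists_subset_card_eq hinf n
      have h1 := hcard s (fun F hF => hs hF)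
      rw [hsn] at h1
      linarith
    refine ⟨hfin, ?_⟩
    rw [Set.ncard_eq_toFinset_card _ hfin]
    exact hcard _ (fun F hF => (Set.Finite.mem_toFinset hfin).1 hF)

end Pool.Agent.Results.MP_f0132d_co.FacetMeanWidths
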