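import Pool.Agent.Lib.MP_f0132d_co.PrismH52

set_option autoImplicit false

/-!
Right prisms over a convex polygon with `n` vertices which tile space by congruent copies: `n ≤ 8`,
and at least `4 (n - 6)` vertices of the base have a partner (the two angles add up to 270 degrees).
-/

namespace Pool.Agent.Results.MP_f0132d_co.RightPrisms

open MeasureTheory Pool.Agent.Lib.MP_f0132d_co

/-- three-dimensional Euclidean space -/
abbrev E3 := EuclideanSpace ℝ (Fin 3)

/-- `P` is the prototile of a monohedral tiling of space: countably many congruent copies of `P`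
(images under isometries) cover the space and have pairwise disjoint interiors. -/
def IsSpaceFiller (P : Set E3) : Prop :=
  ∃ (ι : Type) (g : ι → E3 ≃ᵢ E3), Countable ι ∧ (⋃ i, g i '' P) = Set.univ ∧
    ∀ i j, i ≠ j → Disjoint (interior (g i '' P)) (interior (g j '' P))

/-- `S` is the vertex set of a convex polygon: no point of `S` is in the convex hull of the
others, and the convex hull has nonempty interior -/
def IsPolygon (S : Finset (ℝ × ℝ)) : Prop :=
  (∀ q ∈ S, q ∉ convexHull ℝ ((S : Set (ℝ × ℝ)) \ {q})) ∧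
    (interior (convexHull ℝ (S : Set (ℝ × ℝ)))).Nonempty

/-- the right prism of height `h` over the convex polygon with the vertices `S` -/
def rightPrism (S : Finset (ℝ × ℝ)) (h : ℝ) : Set E3 :=
  {x | (x 0, x 1) ∈ convexHull ℝ (S : Set (ℝ × ℝ)) ∧ 0 ≤ x 2 ∧ x 2 ≤ h}

/-- the angle of the polygon at `q`, as a fraction of the full angle: the fraction of the unit
ball filled by the vectors `w` whose horizontal part points from `q` into the polygon (the
dihedral angle of the prism at the lateral edge above `q`) -/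
noncomputable def angleFraction (S : Finset (ℝ × ℝ)) (q : ℝ × ℝ) : ℝ :=
  (volume {w : E3 | ‖w‖ ≤ 1 ∧ ∃ ε : ℝ, 0 < ε ∧
    (q.1 + ε * w 0, q.2 + ε * w 1) ∈ convexHull ℝ (S : Set (ℝ × ℝ))}).toReal /
    (volume (Metric.closedBall (0 : E3) 1)).toReal

/-- the vertex `q` has a partner: a vertex `q'` (possibly `q` itself) such that the two angles add
up to three quarters of the full angle -/
def HasPartner (S : Finset (ℝ × ℝ)) (q : ℝ × ℝ) : Prop :=
  ∃ q' ∈ S, angleFraction S q + angleFraction S q' = 3 / 4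

theorem angle_eq (S : Finset (ℝ × ℝ)) (q : ℝ × ℝ) :
    angleFraction S q = SF52.th (SF52.fc (SF52.poly S) q) / SF52.bb := by
  unfold angleFraction SF52.th SF52.bb
  congr 3
  ext w
  constructor
  · rintro ⟨h1, ε, h2, h3⟩
    refine ⟨⟨ε, h2, ?_⟩, mem_closedBall_zero_iff.2 h1⟩
    exact h3
  · rintro ⟨⟨ε, h2, h3⟩, h1⟩
    exact ⟨mem_closedBall_zero_iff.1 h1, ε, h2, h3⟩

theorem partner_of {S : Finset (ℝ × ℝ)} {q : ℝ × ℝ} (h : SF52.Pt S q) : HasPartner S q := by
  obtain ⟨q', hq', h1⟩ := h
  refine ⟨q', hq', ?_⟩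
  have hb := SF52.bb_pos
  rw [angle_eq, angle_eq, ← add_div, h1]
  field_simp

/-- **Space-filling right prisms.** -/
theorem result (S : Finset (ℝ × ℝ)) (hS : IsPolygon S) (h : ℝ) (hh : 0 < h)
    (ht : IsSpaceFiller (rightPrism S h)) :
    S.card ≤ 8 ∧ 4 * S.card ≤ 24 + {q | q ∈ S ∧ HasPartner S q}.ncard := by
  classical
  obtain ⟨ι, g, -, hcov, hdisj⟩ := ht
  obtain ⟨hS1, hi⟩ := hS
  -- the prism has interior points
  have hPi : (interior (SF52.prism (SF52.poly S) h)).Nonempty := by
    obtain ⟨q, hq⟩ := hi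
    refine ⟨SF52.mk3 q (h / 2), ?_⟩
    have hopen : IsOpen {x : E3 | SF52.pr x ∈ interior (SF52.poly S) ∧ 0 < x 2 ∧ x 2 < h} := by
      have h1 : IsOpen {x : E3 | SF52.pr x ∈ interior (SF52.poly S)} :=
        isOpen_interior.preimage SF52.pr_cont
      have h2 : IsOpen {x : E3 | 0 < x 2} := isOpen_lt continuous_const (by fun_prop)
      have h3 : IsOpen {x : E3 | x 2 < h} := isOpen_lt (by fun_prop) continuous_const
      exact h1.inter (h2.inter h3)
    apply interior_maximal _ hopen
    · refine ⟨hq, ?_, ?_⟩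
      · change 0 < h / 2
        linarith
      · change h / 2 < h
        linarith
    · rintro x ⟨k1, k2, k3⟩
      exact ⟨interior_subset k1, k2.le, k3.le⟩
  rcases Nat.lt_or_ge S.card 3 with h3 | h3
  · exact ⟨by omega, by omega⟩
  refine ⟨SF52.prism_bound hS1 hi hh hPi g hcov hdisj, ?_⟩
  have hfin : {q | q ∈ S ∧ HasPartner S q}.Finite :=
    S.finite_toSet.subset (fun q hq => hq.1)
  have h4 := SF52.partner_bound hS1 h3 hi hh hPi g hcov hdisj hfin.toFinset
    (fun q hq hp => hfin.mem_toFinset.2 ⟨hq, partner_of hp⟩)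
  rw [Set.ncard_eq_toFinset_card _ hfin]
  exact h4

end Pool.Agent.Results.MP_f0132d_co.RightPrisms
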