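import Pool.Agent.Lib.MP_f0132d_co.ZonoC52

set_option autoImplicit false

/-!
Zonotopes which tile space by congruent copies.
-/

namespace Pool.Agent.Results.MP_f0132d_co.Zonotopes

open MeasureTheory Pool.Agent.Lib.MP_f0132d_co

/-- three-dimensional Euclidean space -/
abbrev E3 := EuclideanSpace ℝ (Fin 3)

/-- `P` is the prototile of a monohedral tiling of space: countably many congruent copies of `P`
(images under isometries) cover the space and have pairwise disjoint interiors. -/
def IsSpaceFiller (P : Set E3) : Prop :=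
  ∃ (ι : Type) (g : ι → E3 ≃ᵢ E3), Countable ι ∧ (⋃ i, g i '' P) = Set.univ ∧
    ∀ i j, i ≠ j → Disjoint (interior (g i '' P)) (interior (g j '' P))

/-- `F` is a facet of `P`: the set of the points of `P` where some nonzero linear functional is
maximal on `P`, not contained in a line. -/
def IsFacet (P F : Set E3) : Prop :=
  (∃ φ : E3 →ₗ[ℝ] ℝ, φ ≠ 0 ∧ F = {x | x ∈ P ∧ ∀ y ∈ P, φ y ≤ φ x}) ∧ ¬ Collinear ℝ F

/-- the zonotope with generators `a 0, ..., a (n - 1)`, the Minkowski sum of the segments
`[0, a i]` -/
def zonotope {n : ℕ} (a : Fin n → E3) : Set E3 :=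
  {x | ∃ t : Fin n → ℝ, (∀ i, 0 ≤ t i ∧ t i ≤ 1) ∧ x = ∑ i, t i • a i}

/-- the direction `u` is parallel to `F`: some nondegenerate segment in `F` has direction `u` -/
def IsParallel (u : E3) (F : Set E3) : Prop := ∃ x ∈ F, ∃ c : ℝ, c ≠ 0 ∧ x + c • u ∈ F

/-- the number of facets -/
noncomputable def numFacets (P : Set E3) : ℕ := {F : Set E3 | IsFacet P F}.ncard

/-- the number of facets parallel to the direction `u`; for a generator `u` of a zonotope this is
the number of facets of its zone -/
noncomputable def zoneSize (P : Set E3) (u : E3) : ℕ :=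
  {F : Set E3 | IsFacet P F ∧ IsParallel u F}.ncard

/-- **Space-filling zonotopes.** -/
theorem result (n : ℕ) (a : Fin n → E3)
    (hind : ∀ i j, i ≠ j → LinearIndependent ℝ ![a i, a j])
    (hi : (interior (zonotope a)).Nonempty) (ht : IsSpaceFiller (zonotope a)) :
    {F : Set E3 | IsFacet (zonotope a) F}.Finite ∧
    (∑ i, (zoneSize (zonotope a) (a i) : ℝ) * ‖a i‖ ≤ 6 * ∑ i, ‖a i‖) ∧
    ((∀ i, 6 ≤ zoneSize (zonotope a) (a i)) → numFacets (zonotope a) ≤ 14) ∧
    ((∀ p, ∀ φ : E3 →ₗ[ℝ] ℝ, φ ≠ 0 → ∃ k, k ≠ p ∧ φ (a k) ≠ 0) →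
      ∀ lo up : ℝ, 0 < lo → (∀ i, lo ≤ ‖a i‖) → (∀ i, ‖a i‖ ≤ up) →
        (numFacets (zonotope a) : ℝ) ≤ 12 + 2 * (up / lo)) ∧
    ((∀ i j k, i ≠ j → i ≠ k → j ≠ k → LinearIndependent ℝ ![a i, a j, a k]) →
      numFacets (zonotope a) ≤ 12) := by
  classical
  obtain ⟨ι, g, -, hcov, hdisj⟩ := ht
  have hi' : (interior (SF52.zono a)).Nonempty := hi
  have hfin := SF52.facets_finite hind hi'
  have hineq : ∑ i, (zoneSize (zonotope a) (a i) : ℝ) * ‖a i‖ ≤ 6 * ∑ i, ‖a i‖ :=
    SF52.zono_ineq hind hi' g hcov hdisj
  obtain ⟨L, hL, hL2, hLw, hf, hm⟩ := SF52.zono_lin hind hi'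
  have hnum : numFacets (zonotope a) = 2 * L.card := hf
  have hzone : ∀ i, zoneSize (zonotope a) (a i) = 2 * (L.filter (fun l => i ∈ l)).card := hm
  -- fewer than two generators: no facets
  have hsmall : n < 2 → numFacets (zonotope a) = 0 := by
    intro hn
    rw [hnum]
    have : L = ∅ := by
      rw [Finset.eq_empty_iff_forall_notMem]
      intro l hl
      have h1 := hL2 l hl
      have h2 := l.card_le_univ
      rw [Fintype.card_fin] at h2
      omega
    rw [this]
    rfl
  have hnorm : 2 ≤ n → ∀ i, 0 < ‖a i‖ := by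
    intro hn i
    obtain ⟨j, hj⟩ : ∃ j : Fin n, i ≠ j := by
      by_cases h0 : i = ⟨0, by omega⟩
      · exact ⟨⟨1, by omega⟩, by rw [h0]; simp⟩
      · exact ⟨⟨0, by omega⟩, h0⟩
    exact SF52.norm_pos_of_ind hind hj
  -- all zones with at least six facets
  have hbig : 2 ≤ n → (∀ i, 3 ≤ (L.filter (fun l => i ∈ l)).card) → L.card ≤ 7 ∧
      ∀ i, (L.filter (fun l => i ∈ l)).card = 3 := by
    intro hn h3
    have hall : ∀ i, (L.filter (fun l => i ∈ l)).card = 3 := by
      by_contra hcon
      push Not at hcon
      obtain ⟨i₀, hi₀⟩ := hcon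
      have hterm : ∀ i ∈ (Finset.univ : Finset (Fin n)),
          6 * ‖a i‖ ≤ (zoneSize (zonotope a) (a i) : ℝ) * ‖a i‖ := by
        intro i _
        rw [hzone i]
        have : (6 : ℝ) ≤ ((2 * (L.filter (fun l => i ∈ l)).card : ℕ) : ℝ) := by
          have := h3 i
          exact_mod_cast (by omega : 6 ≤ 2 * (L.filter (fun l => i ∈ l)).card)
        exact mul_le_mul_of_nonneg_right this (norm_nonneg _)
      have hlt : 6 * ‖a i₀‖ < (zoneSize (zonotope a) (a i₀) : ℝ) * ‖a i₀‖ := by
        rw [hzone i₀]
        have : (6 : ℝ) < ((2 * (L.filter (fun l => i₀ ∈ l)).card : ℕ) : ℝ) := by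
          have := h3 i₀
          exact_mod_cast (by omega : 6 < 2 * (L.filter (fun l => i₀ ∈ l)).card)
        exact mul_lt_mul_of_pos_right this (hnorm hn i₀)
      have := Finset.sum_lt_sum hterm ⟨i₀, Finset.mem_univ _, hlt⟩
      rw [← Finset.mul_sum] at this
      linarith
    have hnp : ¬ SF52.NP L Finset.univ := by
      rintro ⟨q, l, hl, hsub⟩
      obtain ⟨x, hx, hxq⟩ : ∃ x ∈ l, x ≠ q := by
        have h2 := hL2 l hl
        exact Finset.exists_mem_ne (by omega) q
      have hx3 := hall x
      -- the lines through `x` are `l` and the line of `x` and `q`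
      obtain ⟨l', hl', hx', hq'⟩ := hL.ex x q hxq
      have hsub2 : L.filter (fun l => x ∈ l) ⊆ {l, l'} := by
        intro m hm
        rw [Finset.mem_filter] at hm
        rw [Finset.mem_insert, Finset.mem_singleton]
        by_contra hne
        push Not at hne
        obtain ⟨y, hy, hyx⟩ := Finset.exists_mem_ne (by have := hL2 m hm.1; omega : 1 < m.card) x
        rcases Finset.mem_insert.1 (hsub (Finset.mem_univ y)) with h | h
        · exact hne.2 (hL.uniq m hm.1 l' hl' x y (Ne.symm hyx) hm.2 hy hx' (h ▸ hq'))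
        · exact hne.1 (hL.uniq m hm.1 l hl x y (Ne.symm hyx) hm.2 hy hx h)
      have := (Finset.card_le_card hsub2).trans Finset.card_le_two
      omega
    have h1 := SF52.lines_le hL hL2 hn hnp
    have h2 : ∑ i, (L.filter (fun l => i ∈ l)).card = 3 * n := by
      rw [Finset.sum_congr rfl (fun i _ => hall i)]
      simp [mul_comm]
    exact ⟨by omega, hall⟩
  refine ⟨hfin, hineq, ?_, ?_, ?_⟩
  · intro h6
    by_cases hn : n < 2
    · rw [hsmall hn]; norm_num
    have := (hbig (by omega) (fun i => by have := h6 i; rw [hzone i] at this; omega)).1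
    rw [hnum]
    omega
  · intro hprism lo up hlo hlo' hup'
    by_cases hn : n < 2
    · rw [hsmall hn]
      rcases Nat.eq_zero_or_pos n with h0 | h0
      · -- no generator: impossible
        exfalso
        obtain ⟨φ, hφ⟩ : ∃ φ : E3 →ₗ[ℝ] ℝ, φ ≠ 0 := by
          refine ⟨(innerSL ℝ (EuclideanSpace.single (0 : Fin 3) (1 : ℝ))).toLinearMap, ?_⟩
          intro h
          have := congrArg (fun f : E3 →ₗ[ℝ] ℝ => f (EuclideanSpace.single (0 : Fin 3) (1 : ℝ))) h
          simp at this
        obtain ⟨k, -⟩ := SF52.exists_nonzero hi' hφ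
        exact absurd k.2 (by omega)
      · have h1 := hlo' ⟨0, h0⟩
        have h2 := hup' ⟨0, h0⟩
        have : 0 ≤ up / lo := div_nonneg (by linarith) hlo.le
        push_cast
        linarith
    push Not at hn
    have hnp : ¬ SF52.NP L Finset.univ := by
      rintro ⟨q, l, hl, hsub⟩
      obtain ⟨w, hw, hlw⟩ := hLw l hl
      obtain ⟨k, hkq, hk⟩ := hprism q w hw
      rcases Finset.mem_insert.1 (hsub (Finset.mem_univ k)) with h | h
      · exact hkq h
      · exact hk ((hlw k).1 h)
    have hratio : 1 ≤ up / lo := by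
      rw [le_div_iff₀ hlo, one_mul]
      exact (hlo' ⟨0, by omega⟩).trans (hup' ⟨0, by omega⟩)
    rw [hnum]
    by_cases hall : ∀ i, 3 ≤ (L.filter (fun l => i ∈ l)).card
    · have := (hbig hn hall).1
      have h7 : ((2 * L.card : ℕ) : ℝ) ≤ 14 := by exact_mod_cast (by omega : 2 * L.card ≤ 14)
      linarith
    · push Not at hall
      obtain ⟨p, hp⟩ := hall
      obtain ⟨q, hqp⟩ : ∃ q : Fin n, p ≠ q := by
        by_cases h0 : p = ⟨0, by omega⟩
        · exact ⟨⟨1, by omega⟩, by rw [h0]; simp⟩
        · exact ⟨⟨0, by omega⟩, h0⟩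
      have hp2 : (L.filter (fun l => p ∈ l)).card = 2 := by
        have := SF52.two_le_lines hL hnp hqp
        omega
      have hothers : ∀ i, i ≠ p → 3 ≤ (L.filter (fun l => i ∈ l)).card := fun i hip =>
        SF52.two_small hL (V := Finset.univ) (by simp) hnp (Ne.symm hip) (by omega)
      -- the inequality of the zones
      have hsum : lo * ∑ i ∈ Finset.univ.erase p,
          (((L.filter (fun l => i ∈ l)).card : ℝ) - 3) ≤ up := by
        have e1 : ∑ i ∈ Finset.univ.erase p,
            (((L.filter (fun l => i ∈ l)).card : ℝ) - 3) * ‖a i‖ ≤ ‖a p‖ := by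
          have e2 : ∑ i, (((L.filter (fun l => i ∈ l)).card : ℝ) - 3) * ‖a i‖ ≤ 0 := by
            have e3 : ∀ i, (((L.filter (fun l => i ∈ l)).card : ℝ) - 3) * ‖a i‖ =
                ((zoneSize (zonotope a) (a i) : ℝ) * ‖a i‖ - 6 * ‖a i‖) / 2 := by
              intro i
              rw [hzone i]
              push_cast
              ring
            rw [Finset.sum_congr rfl (fun i _ => e3 i), ← Finset.sum_div,
              Finset.sum_sub_distrib, ← Finset.mul_sum]
            linarith
          rw [← Finset.add_sum_erase _ _ (Finset.mem_univ p), hp2] at e2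
          push_cast at e2
          linarith
        rw [Finset.mul_sum]
        refine le_trans ?_ (e1.trans (hup' p))
        apply Finset.sum_le_sum
        intro i hi1
        rw [mul_comm lo]
        apply mul_le_mul_of_nonneg_left (hlo' i)
        have h3 := hothers i (Finset.mem_erase.1 hi1).1
        have : (3 : ℝ) ≤ ((L.filter (fun l => i ∈ l)).card : ℝ) := by exact_mod_cast h3
        linarith
      have hsum2 : ∑ i ∈ Finset.univ.erase p,
          (((L.filter (fun l => i ∈ l)).card : ℝ) - 3) ≤ up / lo := by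
        rw [le_div_iff₀ hlo, mul_comm]
        exact hsum
      have h1 := SF52.lines_le hL hL2 hn hnp
      have h1' : (L.card : ℝ) + 3 * n ≤
          ∑ i, ((L.filter (fun l => i ∈ l)).card : ℝ) + 7 := by exact_mod_cast h1
      rw [← Finset.add_sum_erase _ _ (Finset.mem_univ p), hp2] at h1'
      rw [Finset.sum_sub_distrib, Finset.sum_const, Finset.card_erase_of_mem (Finset.mem_univ p),
        Finset.card_univ, Fintype.card_fin, nsmul_eq_mul, Nat.cast_sub (by omega)] at hsum2
      push_cast at h1' hsum2 ⊢
      linarith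
  · intro hgen
    have hcard2 : ∀ l ∈ L, l.card = 2 := by
      intro l hl
      by_contra hne
      have h2 := hL2 l hl
      obtain ⟨i, hi1, j, hj1, k, hk1, hij, hik, hjk⟩ := Finset.two_lt_card.1 (by omega : 2 < l.card)
      obtain ⟨w, hw, hlw⟩ := hLw l hl
      apply hw
      have hli := hgen i j k hij hik hjk
      have hspan : Submodule.span ℝ (Set.range ![a i, a j, a k]) = ⊤ := by
        apply hli.span_eq_top_of_card_eq_finrank
        simp
      have hker : Submodule.span ℝ (Set.range ![a i, a j, a k]) ≤ LinearMap.ker w := by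
        rw [Submodule.span_le]
        rintro _ ⟨m, rfl⟩
        fin_cases m
        · exact (hlw i).1 hi1
        · exact (hlw j).1 hj1
        · exact (hlw k).1 hk1
      rw [hspan, top_le_iff, LinearMap.ker_eq_top] at hker
      exact hker
    have hsub : L ⊆ Finset.univ.powersetCard 2 := by
      intro l hl
      rw [Finset.mem_powersetCard]
      exact ⟨Finset.subset_univ _, hcard2 l hl⟩
    have hLn : L.card ≤ n.choose 2 := by
      have := Finset.card_le_card hsub
      rw [Finset.card_powersetCard, Finset.card_univ, Fintype.card_fin] at this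
      exact this
    have hn4 : n ≤ 4 := by
      by_contra hcon
      push Not at hcon
      have hdeg : ∀ i, n - 1 ≤ (L.filter (fun l => i ∈ l)).card := by
        intro i
        have hinj : Set.InjOn (fun j : Fin n => ({i, j} : Finset (Fin n)))
            (Finset.univ.erase i : Finset (Fin n)) := by
          intro x hx y hy hxy
          rw [Finset.mem_coe, Finset.mem_erase] at hx hy
          have : x ∈ ({i, y} : Finset (Fin n)) := by
            have h0 : ({i, x} : Finset (Fin n)) = {i, y} := hxy
            rw [← h0]; simp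
          rw [Finset.mem_insert, Finset.mem_singleton] at this
          exact this.resolve_left hx.1
        have h1 : (Finset.univ.erase i : Finset (Fin n)).card = n - 1 := by
          rw [Finset.card_erase_of_mem (Finset.mem_univ i), Finset.card_univ, Fintype.card_fin]
        rw [← h1, ← Finset.card_image_of_injOn hinj]
        apply Finset.card_le_card
        intro l hl
        rw [Finset.mem_image] at hl
        obtain ⟨j, hj, rfl⟩ := hl
        rw [Finset.mem_erase] at hj
        obtain ⟨l, hl, hil, hjl⟩ := hL.ex i j (Ne.symm hj.1)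
        have hsub1 : ({i, j} : Finset (Fin n)) ⊆ l := by
          intro x hx
          rw [Finset.mem_insert, Finset.mem_singleton] at hx
          rcases hx with rfl | rfl
          · exact hil
          · exact hjl
        have heq : ({i, j} : Finset (Fin n)) = l := by
          apply Finset.eq_of_subset_of_card_le hsub1
          rw [hcard2 l hl, Finset.card_pair (Ne.symm hj.1)]
        rw [Finset.mem_filter, heq]
        exact ⟨hl, hil⟩
      have h3 := (hbig (by omega) (fun i => by have := hdeg i; omega)).2 ⟨0, by omega⟩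
      have := hdeg ⟨0, by omega⟩
      omega
    rw [hnum]
    have : n.choose 2 ≤ (4 : ℕ).choose 2 := Nat.choose_le_choose 2 hn4
    have h6 : (4 : ℕ).choose 2 = 6 := by decide
    omega

end Pool.Agent.Results.MP_f0132d_co.Zonotopes
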